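import Pool.Agent.Y671.GL.Spec
import Pool.Agent.W261.SD.SGamLow

set_option autoImplicit false

/-!
# Lower bound for the Gamma factor, all `σ` in a compact subset of `(0, ∞)`
-/

namespace Pool.Agent.Y180.GL

open Complex Pool.Agent.H401R2 Pool.Agent.W688.GF Pool.Agent.W261.SD

/-- the constant -/
noncomputable def cG : ℝ := Real.exp (-(cS + 2)) / 2

lemma cG_pos : 0 < cG := by unfold cG; positivity

lemma nrm_ge {σ t : ℝ} (ht : 0 < t) : t ≤ ‖(σ : ℂ) + t * I‖ := by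
  have := Complex.abs_im_le_norm ((σ : ℂ) + t * I)
  simpa [abs_of_pos ht] using this

lemma gam_small {σ t : ℝ} (h0 : 0 < σ) (h1 : σ ≤ 1) (ht : 1 ≤ t) :
    cG * t ^ (σ - 1 / 2) * Real.exp (-(Real.pi / 2 * t)) ≤ ‖Gamma ((σ : ℂ) + t * I)‖ := by
  set s : ℂ := (σ : ℂ) + t * I with hs
  have hsre : s.re = σ := by simp [hs]
  have hsim : s.im = t := by simp [hs]
  have ht0 : 0 < t := by linarith
  have hs0 : s ≠ 0 := by
    intro h
    rw [h] at hsim
    simp at hsim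
    linarith
  have hns : 0 < ‖s‖ := norm_pos_iff.2 hs0
  have h3 := gamma_re_one (z := s + 1) (by rw [add_re, hsre, one_re]; linarith)
    (by rw [add_re, hsre, one_re]; linarith) (by rw [add_im, hsim, one_im]; linarith)
  rw [Complex.Gamma_add_one s hs0, norm_mul, add_re, hsre, one_re, add_im, hsim, one_im, add_zero] at h3
  have h4 : ‖s‖ ≤ ‖s + 1‖ := by
    rw [← pow_le_pow_iff_left₀ (norm_nonneg _) (norm_nonneg _) two_ne_zero, Complex.sq_norm,
      Complex.sq_norm]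
    rw [Complex.normSq_apply, Complex.normSq_apply, add_re s 1, add_im s 1, hsre, hsim, one_re,
      one_im]
    nlinarith
  have h5 : t ≤ ‖s‖ := nrm_ge ht0
  have h5' : ‖s‖ ≤ 2 * t := by
    calc ‖s‖ ≤ ‖(σ : ℂ)‖ + ‖(t : ℂ) * I‖ := norm_add_le _ _
      _ = σ + t := by
        rw [norm_mul, Complex.norm_I, mul_one, Complex.norm_real, Complex.norm_real,
          Real.norm_of_nonneg h0.le, Real.norm_of_nonneg ht0.le]
      _ ≤ 2 * t := by linarith
  have h6 : ‖s‖ ^ (σ + 1 - 1 / 2) ≤ ‖s + 1‖ ^ (σ + 1 - 1 / 2) :=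
    Real.rpow_le_rpow hns.le h4 (by linarith)
  have h7 : ‖s‖ ^ (σ + 1 - 1 / 2) = ‖s‖ * ‖s‖ ^ (σ - 1 / 2) := by
    rw [show σ + 1 - 1 / 2 = 1 + (σ - 1 / 2) by ring, Real.rpow_add hns, Real.rpow_one]
  have h8 : t ^ (σ - 1 / 2) / 2 ≤ ‖s‖ ^ (σ - 1 / 2) := by
    rcases le_total (1 / 2) σ with h | h
    · have := Real.rpow_le_rpow ht0.le h5 (show (0 : ℝ) ≤ σ - 1 / 2 by linarith)
      have h9 : 0 < t ^ (σ - 1 / 2) := Real.rpow_pos_of_pos ht0 _
      linarith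
    · have e1 : (2 * t) ^ (σ - 1 / 2) ≤ ‖s‖ ^ (σ - 1 / 2) :=
        Real.rpow_le_rpow_of_nonpos hns h5' (by linarith)
      refine le_trans ?_ e1
      rw [Real.mul_rpow (by norm_num) ht0.le]
      have e2 : (2 : ℝ) ^ (-1 : ℝ) ≤ (2 : ℝ) ^ (σ - 1 / 2) :=
        Real.rpow_le_rpow_of_exponent_le (by norm_num) (by linarith)
      rw [Real.rpow_neg_one] at e2
      have h9 : 0 < t ^ (σ - 1 / 2) := Real.rpow_pos_of_pos ht0 _
      have := mul_le_mul_of_nonneg_right e2 h9.le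
      linarith
  have h9 : ‖s‖ * (cG * t ^ (σ - 1 / 2) * Real.exp (-(Real.pi / 2 * t))) ≤
      ‖s‖ * ‖Gamma s‖ := by
    calc ‖s‖ * (cG * t ^ (σ - 1 / 2) * Real.exp (-(Real.pi / 2 * t)))
        = ‖s‖ * (Real.exp (-(cS + 2)) * (t ^ (σ - 1 / 2) / 2) * Real.exp (-(Real.pi / 2 * t))) := by
          unfold cG; ring
      _ ≤ ‖s‖ * (Real.exp (-(cS + 2)) * ‖s‖ ^ (σ - 1 / 2) * Real.exp (-(Real.pi / 2 * t))) := by
          gcongr
      _ = Real.exp (-(cS + 2)) * ‖s‖ ^ (σ + 1 - 1 / 2) * Real.exp (-(Real.pi / 2 * t)) := by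
          rw [h7]; ring
      _ ≤ Real.exp (-(cS + 2)) * ‖s + 1‖ ^ (σ + 1 - 1 / 2) * Real.exp (-(Real.pi / 2 * t)) := by
          gcongr
      _ ≤ _ := h3
  exact le_of_mul_le_mul_left h9 hns

lemma gam_step (n : ℕ) : ∀ {σ t : ℝ}, 0 < σ → σ ≤ n + 1 → 1 ≤ t →
    cG * t ^ (σ - 1 / 2) * Real.exp (-(Real.pi / 2 * t)) ≤ ‖Gamma ((σ : ℂ) + t * I)‖ := by
  induction n with
  | zero => intro σ t h0 h1 ht; exact gam_small h0 (by simpa using h1) ht
  | succ n ih =>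
    intro σ t h0 h1 ht
    rcases le_or_gt σ 1 with h | h
    · exact gam_small h0 h ht
    · have ht0 : 0 < t := by linarith
      have h2 := ih (σ := σ - 1) (t := t) (by linarith) (by push_cast at h1; linarith) ht
      have hne : (((σ - 1 : ℝ) : ℂ) + t * I) ≠ 0 := by
        intro h3
        have := congrArg Complex.im h3
        simp at this
        linarith
      have e : ((σ : ℂ) + t * I) = (((σ - 1 : ℝ) : ℂ) + t * I) + 1 := by push_cast; ring
      rw [e, Complex.Gamma_add_one _ hne, norm_mul]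
      have h3 : t ≤ ‖(((σ - 1 : ℝ) : ℂ) + t * I)‖ := nrm_ge ht0
      have h4 : t ^ (σ - 1 / 2) = t * t ^ (σ - 1 - 1 / 2) := by
        rw [show σ - 1 / 2 = 1 + (σ - 1 - 1 / 2) by ring, Real.rpow_add ht0, Real.rpow_one]
      calc cG * t ^ (σ - 1 / 2) * Real.exp (-(Real.pi / 2 * t))
          = t * (cG * t ^ (σ - 1 - 1 / 2) * Real.exp (-(Real.pi / 2 * t))) := by rw [h4]; ring
        _ ≤ ‖(((σ - 1 : ℝ) : ℂ) + t * I)‖ * ‖Gamma (((σ - 1 : ℝ) : ℂ) + t * I)‖ :=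
          mul_le_mul h3 h2 (by have := cG_pos; positivity) (norm_nonneg _)

lemma gam_all {σ t : ℝ} (h0 : 0 < σ) (ht : 1 ≤ t) :
    cG * t ^ (σ - 1 / 2) * Real.exp (-(Real.pi / 2 * t)) ≤ ‖Gamma ((σ : ℂ) + t * I)‖ := by
  obtain ⟨n, hn⟩ := exists_nat_ge σ
  exact gam_step n h0 (by linarith) ht

/-- GAM -/
theorem gam : Pool.Agent.Y671.GL.S_GAM := by
  intro A B hA hAB
  refine ⟨(cG * Real.exp (-4 : ℝ)) ^ 2 * (4 : ℝ) ^ (-(2 * B + 1)), 4,
    by have := cG_pos; positivity, by norm_num, ?_⟩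
  intro T t σ hT ht1 ht2 h1 h2
  have hT0 : 0 < T := by linarith
  have ht : 1 ≤ t := by linarith
  have ht0 : 0 < t := by linarith
  have hc := cG_pos
  have hg := gam_all (show 0 < σ by linarith) ht
  have hexp : ‖cexp (-(I * ((Real.pi / 2 - 1 / T : ℝ) : ℂ)) * ((σ : ℂ) + t * I))‖ =
      Real.exp ((Real.pi / 2 - 1 / T) * t) := by
    rw [norm_exp]
    congr 1
    simp only [neg_mul, neg_re, mul_re, mul_im, I_re, I_im, ofReal_re, ofReal_im, add_re, add_im]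
    ring
  rw [norm_mul, hexp]
  have h3 : cG * t ^ (σ - 1 / 2) * Real.exp (-(t / T)) ≤
      Real.exp ((Real.pi / 2 - 1 / T) * t) * ‖Gamma ((σ : ℂ) + t * I)‖ := by
    refine le_trans (le_of_eq ?_) (mul_le_mul_of_nonneg_left hg (Real.exp_pos _).le)
    have : Real.exp (-(t / T)) = Real.exp ((Real.pi / 2 - 1 / T) * t) *
        Real.exp (-(Real.pi / 2 * t)) := by
      rw [← Real.exp_add]
      congr 1
      ring
    rw [this]
    ring
  have h4 : t / T ≤ 4 := by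
    rw [div_le_iff₀ hT0]
    exact ht2
  have h5 : Real.exp (-4 : ℝ) ≤ Real.exp (-(t / T)) := Real.exp_le_exp.2 (by linarith)
  have h6 : cG * t ^ (σ - 1 / 2) * Real.exp (-4 : ℝ) ≤
      Real.exp ((Real.pi / 2 - 1 / T) * t) * ‖Gamma ((σ : ℂ) + t * I)‖ :=
    le_trans (mul_le_mul_of_nonneg_left h5 (by positivity)) h3
  have h9 := pow_le_pow_left₀ (by positivity) h6 2
  refine le_trans ?_ h9
  have e1 : (cG * t ^ (σ - 1 / 2) * Real.exp (-4 : ℝ)) ^ 2 =
      (cG * Real.exp (-4 : ℝ)) ^ 2 * t ^ (2 * σ - 1) := by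
    have q1 : (t ^ (σ - 1 / 2)) ^ 2 = t ^ (2 * σ - 1) := by
      rw [← Real.rpow_natCast, ← Real.rpow_mul ht0.le]
      congr 1
      push_cast
      ring
    rw [mul_pow, mul_pow, q1]
    ring
  rw [e1, mul_assoc]
  refine mul_le_mul_of_nonneg_left ?_ (by positivity)
  -- `4^(-(2B+1)) T^(2σ-1) ≤ t^(2σ-1)`
  have e2 : t ^ (2 * σ - 1) = T ^ (2 * σ - 1) * (t / T) ^ (2 * σ - 1) := by
    rw [← Real.mul_rpow hT0.le (by positivity)]
    congr 1
    field_simp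
  rw [e2, mul_comm]
  refine mul_le_mul_of_nonneg_left ?_ (by positivity)
  rcases le_total 0 (2 * σ - 1) with h | h
  · have f1 : (1 / 4 : ℝ) ^ (2 * σ - 1) ≤ (t / T) ^ (2 * σ - 1) := by
      refine Real.rpow_le_rpow (by norm_num) ?_ h
      rw [le_div_iff₀ hT0]
      linarith
    refine le_trans ?_ f1
    rw [one_div, Real.inv_rpow (by norm_num), ← Real.rpow_neg (by norm_num)]
    exact Real.rpow_le_rpow_of_exponent_le (by norm_num) (by linarith)
  · have f1 : (4 : ℝ) ^ (2 * σ - 1) ≤ (t / T) ^ (2 * σ - 1) :=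
      Real.rpow_le_rpow_of_nonpos (by positivity) h4 h
    refine le_trans ?_ f1
    exact Real.rpow_le_rpow_of_exponent_le (by norm_num) (by linarith)

end Pool.Agent.Y180.GL
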