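import Pool.Agent.Y671.GL.Spec
import Pool.Agent.H581R3.GPR.Rot

set_option autoImplicit false

/-!
# The Mellin transform of `GF` on the ray
-/

namespace Pool.Agent.Y180.GL

open Complex Filter Topology MeasureTheory Set Asymptotics
open scoped ComplexConjugate
open Pool.Agent.H24R2.DZ (MM ray)
open Pool.Agent.Y671.GL Pool.Agent.H581R3.GPR.Rot

/-- the crude bounds -/
structure Cr (B : ℝ) (lam : ℕ → ℂ) : Prop where
  pos : 0 < B
  zero : lam 0 = 0
  le : ∀ n : ℕ, ‖lam n‖ ≤ B * n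

lemma cr_of {k N : ℕ} {ps lam : ℕ → ℂ} (h : Frm k N ps lam) : ∃ B : ℝ, Cr B lam := by
  obtain ⟨th, C, h0, h1, h2⟩ := h.ram
  refine ⟨|C| + 1, by positivity, h.zero, fun n => ?_⟩
  rcases Nat.eq_zero_or_pos n with rfl | hn
  · rw [h.zero]; simp
  · have hn1 : (1 : ℝ) ≤ n := by exact_mod_cast hn
    have e1 : (n : ℝ) ^ th ≤ n := by
      calc (n : ℝ) ^ th ≤ (n : ℝ) ^ (1 : ℝ) := Real.rpow_le_rpow_of_exponent_le hn1 (by linarith)
        _ = n := Real.rpow_one _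
    have e2 : 0 ≤ (n : ℝ) ^ th := by positivity
    calc ‖lam n‖ ≤ C * (n : ℝ) ^ th := h2 n hn
      _ ≤ |C| * (n : ℝ) ^ th := mul_le_mul_of_nonneg_right (le_abs_self C) e2
      _ ≤ |C| * n := mul_le_mul_of_nonneg_left e1 (abs_nonneg C)
      _ ≤ (|C| + 1) * n := by nlinarith

lemma Cr.conj {B : ℝ} {lam : ℕ → ℂ} (h : Cr B lam) : Cr B (fun n => conj (lam n)) :=
  ⟨h.pos, by simp [h.zero], fun n => by rw [RCLike.norm_conj]; exact h.le n⟩

lemma aa_zero (k : ℕ) {B : ℝ} {lam : ℕ → ℂ} (h : Cr B lam) : aa k lam 0 = 0 := by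
  unfold aa; rw [h.zero, zero_mul]

lemma aa_le (k : ℕ) {B : ℝ} {lam : ℕ → ℂ} (h : Cr B lam) (n : ℕ) :
    ‖aa k lam n‖ ≤ B * (n : ℝ) ^ (k + 1) := by
  rcases Nat.eq_zero_or_pos n with rfl | hn
  · rw [aa_zero k h]; simp
  · unfold aa
    have hB := h.pos
    have hn1 : (1 : ℝ) ≤ n := by exact_mod_cast hn
    rw [norm_mul, Complex.norm_real, Real.norm_of_nonneg (by positivity)]
    have e1 : (n : ℝ) ^ (((k : ℝ) - 1) / 2) ≤ (n : ℝ) ^ k := by
      rw [← Real.rpow_natCast]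
      refine Real.rpow_le_rpow_of_exponent_le hn1 ?_
      have : (0 : ℝ) ≤ k := Nat.cast_nonneg k
      linarith
    calc ‖lam n‖ * (n : ℝ) ^ (((k : ℝ) - 1) / 2) ≤ (B * n) * (n : ℝ) ^ k :=
          mul_le_mul (h.le n) e1 (by positivity) (by positivity)
      _ = B * (n : ℝ) ^ (k + 1) := by rw [pow_succ]; ring

lemma nrm_exp (n : ℕ) (z : ℂ) : ‖cexp (-(n * z))‖ = Real.exp (-(n * z.re)) := by
  rw [Complex.norm_exp]
  simp

lemma sm (k : ℕ) {c : ℝ} (hc : 0 < c) : Summable (fun n : ℕ => (n : ℝ) ^ (k + 1) * Real.exp (-c * n)) :=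
  Real.summable_pow_mul_exp_neg_nat_mul (k + 1) hc

lemma term_le (k : ℕ) {B : ℝ} {lam : ℕ → ℂ} (h : Cr B lam) {c : ℝ} {z : ℂ} (hz : c ≤ z.re) (n : ℕ) :
    ‖aa k lam n * cexp (-(n * z))‖ ≤ B * ((n : ℝ) ^ (k + 1) * Real.exp (-c * n)) := by
  have hB := h.pos
  rw [norm_mul, nrm_exp, ← mul_assoc]
  refine mul_le_mul (aa_le k h n) (Real.exp_le_exp.2 ?_) (Real.exp_pos _).le (by positivity)
  have : (0 : ℝ) ≤ n := Nat.cast_nonneg n
  nlinarith

lemma summ (k : ℕ) {B : ℝ} {lam : ℕ → ℂ} (h : Cr B lam) {z : ℂ} (hz : 0 < z.re) :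
    Summable (fun n : ℕ => aa k lam n * cexp (-(n * z))) :=
  Summable.of_norm_bounded ((sm k hz).mul_left B) (fun n => term_le k h le_rfl n)

lemma ph_bd (k : ℕ) {B : ℝ} {lam : ℕ → ℂ} (h : Cr B lam) {c : ℝ} (hc : 0 < c) :
    ∃ C : ℝ, 0 < C ∧ ∀ z : ℂ, c ≤ z.re → ‖Ph k lam z‖ ≤ C * Real.exp (-(z.re / 2)) := by
  have hB := h.pos
  have hs := (sm k (half_pos hc)).mul_left B
  refine ⟨(∑' n : ℕ, B * ((n : ℝ) ^ (k + 1) * Real.exp (-(c / 2) * n))) + 1, ?_, fun z hz => ?_⟩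
  · have : 0 ≤ ∑' n : ℕ, B * ((n : ℝ) ^ (k + 1) * Real.exp (-(c / 2) * n)) :=
      tsum_nonneg fun n => by positivity
    linarith
  · have h1 : ∀ n : ℕ, ‖aa k lam n * cexp (-(n * z))‖ ≤
        B * ((n : ℝ) ^ (k + 1) * Real.exp (-(c / 2) * n)) * Real.exp (-(z.re / 2)) := by
      intro n
      rcases Nat.eq_zero_or_pos n with rfl | hn
      · rw [aa_zero k h]; simp
      · have hn1 : (1 : ℝ) ≤ n := by exact_mod_cast hn
        rw [norm_mul, nrm_exp, mul_assoc, mul_assoc, ← Real.exp_add, ← mul_assoc]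
        refine mul_le_mul (aa_le k h n) (Real.exp_le_exp.2 ?_) (Real.exp_pos _).le (by positivity)
        nlinarith [mul_nonneg (sub_nonneg.2 hn1) (sub_nonneg.2 hz),
          mul_nonneg (sub_nonneg.2 hn1) hc.le]
    have h2 := tsum_of_norm_bounded (hs.mul_right (Real.exp (-(z.re / 2)))).hasSum h1
    rw [tsum_mul_right] at h2
    unfold Ph
    refine h2.trans ?_
    have := Real.exp_pos (-(z.re / 2))
    nlinarith

lemma ph_cont (k : ℕ) {B : ℝ} {lam : ℕ → ℂ} (h : Cr B lam) {z : ℂ} (hz : 0 < z.re) : ContinuousAt (Ph k lam) z := by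
  have hc : 0 < z.re / 2 := half_pos hz
  have h1 : ContinuousOn (Ph k lam) {w : ℂ | z.re / 2 ≤ w.re} := by
    unfold Ph
    refine continuousOn_tsum (fun n => by fun_prop) ((sm k hc).mul_left B) ?_
    intro n w hw
    exact term_le k h hw n
  refine h1.continuousAt (mem_of_superset ((isOpen_lt continuous_const Complex.continuous_re).mem_nhds
    (show z.re / 2 < z.re by linarith)) ?_)
  intro w hw
  exact (show z.re / 2 < w.re from hw).le

/-- on the ray -/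
noncomputable def fr (k : ℕ) (lam : ℕ → ℂ) (d : ℂ) (x : ℝ) : ℂ := Ph k lam (x * d)

lemma re_mul (x : ℝ) (d : ℂ) : ((x : ℂ) * d).re = x * d.re := by simp

lemma fr_cont (k : ℕ) {B : ℝ} {lam : ℕ → ℂ} (h : Cr B lam) {d : ℂ} (hd : 0 < d.re) :
    ContinuousOn (fr k lam d) (Ioi 0) := by
  intro x hx
  have h1 : ContinuousAt (Ph k lam) ((x : ℂ) * d) := ph_cont k h (by rw [re_mul]; exact mul_pos hx hd)
  have h2 : ContinuousAt (fun x : ℝ => (x : ℂ) * d) x := by fun_prop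
  exact (ContinuousAt.comp (f := fun x : ℝ => (x : ℂ) * d) h1 h2).continuousWithinAt

lemma fr_top (k : ℕ) {B : ℝ} {lam : ℕ → ℂ} (h : Cr B lam) {d : ℂ} (hd : 0 < d.re) :
    fr k lam d =O[atTop] (fun x : ℝ => Real.exp (-(d.re / 2) * x)) := by
  obtain ⟨C, hC, hb⟩ := ph_bd k h hd
  refine IsBigO.of_bound C ?_
  filter_upwards [eventually_ge_atTop (1 : ℝ)] with x hx
  have h1 : d.re ≤ ((x : ℂ) * d).re := by rw [re_mul]; nlinarith
  refine (hb _ h1).trans (le_of_eq ?_)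
  rw [Real.norm_of_nonneg (Real.exp_pos _).le, re_mul]
  congr 2
  ring

lemma fr_zero {k N : ℕ} {ps lam : ℕ → ℂ} (hf : Frm k N ps lam) {d : ℂ} (hd : 0 < d.re) (b : ℝ) :
    fr k lam d =O[𝓝[>] 0] (fun x : ℝ => x ^ (-b)) := by
  obtain ⟨ε, hε, hfr⟩ := hf.fricke
  obtain ⟨B, hcr⟩ := cr_of hf
  have hN : (0 : ℝ) < N := by exact_mod_cast hf.N_pos
  have hd0 : d ≠ 0 := by rintro rfl; simp at hd
  have hdi : 0 < (d⁻¹).re := by
    rw [Complex.inv_re]
    exact div_pos hd (Complex.normSq_pos.2 hd0)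
  set c : ℝ := 4 * Real.pi ^ 2 / N * (d⁻¹).re with hc
  have hc0 : 0 < c := by have := Real.pi_pos; positivity
  obtain ⟨C, hC, hb⟩ := ph_bd k hcr.conj hc0
  set K : ℝ := Real.sqrt N * (4 * Real.pi ^ 2 / N * ‖d⁻¹‖) / (2 * Real.pi) with hK
  have hK0 : 0 ≤ K := by have := Real.pi_pos; positivity
  -- the bound near zero
  have h1 : ∀ x : ℝ, 0 < x → x ≤ 1 → ‖fr k lam d x‖ ≤ K ^ k * C * ‖(x⁻¹) ^ (k : ℝ) * Real.exp (-(c / 2) * x⁻¹)‖ := by
    intro x hx hx1
    have hx0 : (x : ℂ) ≠ 0 := by exact_mod_cast hx.ne'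
    have hNc : (N : ℂ) ≠ 0 := by exact_mod_cast hN.ne'
    have hpi : (Real.pi : ℂ) ≠ 0 := by exact_mod_cast Real.pi_ne_zero
    set z : ℂ := ((4 * Real.pi ^ 2 / N * x⁻¹ : ℝ) : ℂ) * d⁻¹ with hz
    have hzr : z.re = c * x⁻¹ := by rw [hz, re_mul, hc]; ring
    have hx1' : 1 ≤ x⁻¹ := (one_le_inv₀ hx).2 hx1
    have hzr0 : 0 < z.re := by rw [hzr]; positivity
    have hzc : c ≤ z.re := by rw [hzr]; nlinarith
    have e := hfr z hzr0
    have e1 : (4 * Real.pi ^ 2 / (N * z) : ℂ) = x * d := by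
      rw [hz]
      push_cast
      field_simp
    rw [e1] at e
    have e2 : ‖((Real.sqrt N : ℝ) : ℂ) * z / (2 * Real.pi)‖ = K * x⁻¹ := by
      rw [hz, norm_div, norm_mul, norm_mul, norm_mul, Complex.norm_real, Complex.norm_real,
        Complex.norm_real, Real.norm_of_nonneg (by positivity), Real.norm_of_nonneg (by positivity),
        Real.norm_of_nonneg Real.pi_pos.le, hK]
      simp only [Complex.norm_ofNat]
      ring
    unfold fr
    rw [e, norm_mul, norm_mul, hε, one_mul, norm_pow, e2]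
    rw [Real.norm_of_nonneg (by positivity), mul_pow, Real.rpow_natCast]
    have h3 := hb z hzc
    rw [hzr] at h3
    have e3 : Real.exp (-(c * x⁻¹ / 2)) = Real.exp (-(c / 2) * x⁻¹) := by congr 1; ring
    rw [e3] at h3
    calc K ^ k * x⁻¹ ^ k * ‖Ph k (fun n => conj (lam n)) z‖
        ≤ K ^ k * x⁻¹ ^ k * (C * Real.exp (-(c / 2) * x⁻¹)) := by gcongr
      _ = K ^ k * C * (x⁻¹ ^ k * Real.exp (-(c / 2) * x⁻¹)) := by ring
  have h2 : fr k lam d =O[𝓝[>] 0] (fun x : ℝ => (x⁻¹) ^ (k : ℝ) * Real.exp (-(c / 2) * x⁻¹)) := by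
    refine IsBigO.of_bound (K ^ k * C) ?_
    have h : ∀ᶠ x : ℝ in 𝓝[>] 0, x ≤ 1 := nhdsWithin_le_nhds (ge_mem_nhds (by norm_num))
    filter_upwards [self_mem_nhdsWithin, h] with x hx hx1
    exact h1 x hx hx1
  refine h2.trans ?_
  have h3 : (fun u : ℝ => u ^ (k : ℝ) * Real.exp (-(c / 2) * u)) =O[atTop] (fun u : ℝ => u ^ b) := by
    have h4 := (isLittleO_exp_neg_mul_rpow_atTop (half_pos hc0) (b - k)).isBigO
    have h5 : (fun u : ℝ => u ^ (k : ℝ)) =O[atTop] (fun u : ℝ => u ^ (k : ℝ)) := isBigO_refl _ _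
    refine (h5.mul h4).congr' EventuallyEq.rfl ?_
    filter_upwards [eventually_gt_atTop (0 : ℝ)] with u hu
    rw [← Real.rpow_add hu]
    congr 1
    ring
  have h4 := h3.comp_tendsto (tendsto_inv_nhdsGT_zero (𝕜 := ℝ))
  refine h4.congr' EventuallyEq.rfl ?_
  filter_upwards [self_mem_nhdsWithin] with x hx
  simp only [Function.comp_apply]
  rw [Real.inv_rpow (le_of_lt hx), Real.rpow_neg (le_of_lt hx)]

lemma fr_conv {k N : ℕ} {ps lam : ℕ → ℂ} (hf : Frm k N ps lam) {d : ℂ} (hd : 0 < d.re) (w : ℂ) :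
    MellinConvergent (fr k lam d) w := by
  obtain ⟨B, hcr⟩ := cr_of hf
  exact mellinConvergent_of_isBigO_rpow_exp (half_pos hd)
    ((fr_cont k hcr hd).locallyIntegrableOn measurableSet_Ioi) (fr_top k hcr hd)
    (fr_zero hf hd (w.re - 1)) (by linarith)

lemma fr_diff {k N : ℕ} {ps lam : ℕ → ℂ} (hf : Frm k N ps lam) {d : ℂ} (hd : 0 < d.re) (w : ℂ) :
    DifferentiableAt ℂ (mellin (fr k lam d)) w := by
  obtain ⟨B, hcr⟩ := cr_of hf
  exact mellin_differentiableAt_of_isBigO_rpow_exp (half_pos hd)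
    ((fr_cont k hcr hd).locallyIntegrableOn measurableSet_Ioi) (fr_top k hcr hd)
    (fr_zero hf hd (w.re - 1)) (by linarith)

/-- the Mellin transform, `Re w` large -/
lemma mellin_fr (k : ℕ) {B : ℝ} {lam : ℕ → ℂ} (h : Cr B lam) {d : ℂ} (hd : 0 < d.re) {w : ℂ}
    (hw : (k : ℝ) + 3 < w.re) :
    mellin (fr k lam d) w = (∑' n : ℕ, aa k lam n * (1 / ((n : ℂ) * d)) ^ w) * Complex.Gamma w := by
  have hk0 : (0 : ℝ) ≤ k := Nat.cast_nonneg k
  have hw0 : 0 < w.re := by linarith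
  set F : ℕ → ℝ → ℂ := fun n x => (x : ℂ) ^ (w - 1) * (aa k lam n * cexp (-(n * (x * d)))) with hF
  have hFe : ∀ (n : ℕ) (x : ℝ), F n x = aa k lam n * ((x : ℂ) ^ (w - 1) * cexp (-((n * d) * x))) := by
    intro n x
    rw [hF]
    simp only
    rw [show (n : ℂ) * (x * d) = (n * d) * x by ring]
    ring
  have hF0 : F 0 = 0 := by
    funext x
    rw [hFe, aa_zero k h]
    simp
  have hnorm : ∀ n : ℕ, ∀ x ∈ Ioi (0 : ℝ), ‖F n x‖ =
      ‖aa k lam n‖ * (x ^ (w.re - 1) * Real.exp (-((n * d.re) * x))) := by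
    intro n x hx
    rw [hFe, norm_mul, norm_mul, Complex.norm_cpow_eq_rpow_re_of_pos hx, Complex.norm_exp]
    congr 3
    simp
  have hre : ∀ n : ℕ, 1 ≤ n → 0 < ((n : ℂ) * d).re := by
    intro n hn
    have : (0 : ℝ) < n := by exact_mod_cast hn
    simp only [Complex.mul_re, Complex.natCast_re, Complex.natCast_im, zero_mul, sub_zero]
    exact mul_pos this hd
  have hposn : ∀ n : ℕ, 1 ≤ n → 0 < (n : ℝ) * d.re := by
    intro n hn
    have : (0 : ℝ) < n := by exact_mod_cast hn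
    exact mul_pos this hd
  have hint : ∀ n, Integrable (F n) (volume.restrict (Ioi 0)) := by
    intro n
    rcases Nat.eq_zero_or_pos n with rfl | hn
    · rw [hF0]; exact integrable_zero _ _ _
    · have h1 : Integrable (fun x : ℝ => (x : ℂ) ^ (w - 1) * cexp (-((n * d) * x)))
          (volume.restrict (Ioi 0)) := by
        refine Integrable.mono' (int_rpow_exp (s := w.re - 1) (by linarith) (hposn n hn))
          (cpow_exp_meas w _) ?_
        refine (ae_restrict_iff' measurableSet_Ioi).2 (Eventually.of_forall fun x hx => ?_)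
        rw [norm_mul, Complex.norm_cpow_eq_rpow_re_of_pos hx, Complex.norm_exp]
        refine le_of_eq ?_
        congr 2
        simp
      refine (h1.const_mul (aa k lam n)).congr (Eventually.of_forall fun x => ?_)
      exact (hFe n x).symm
  have hintn : ∀ n, 1 ≤ n → ∫ x in Ioi (0 : ℝ), ‖F n x‖ =
      ‖aa k lam n‖ * ((1 / ((n : ℝ) * d.re)) ^ w.re * Real.Gamma w.re) := by
    intro n hn
    rw [setIntegral_congr_fun measurableSet_Ioi (hnorm n), integral_const_mul,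
      Real.integral_rpow_mul_exp_neg_mul_Ioi hw0 (hposn n hn)]
  have hsum : Summable fun n => ∫ x in Ioi (0 : ℝ), ‖F n x‖ := by
    have h1 : Summable (fun n : ℕ => 1 / ((n : ℝ) ^ (2 : ℝ))) :=
      Real.summable_one_div_nat_rpow.2 (by norm_num)
    refine Summable.of_norm_bounded ((h1.mul_left B).mul_right ((1 / d.re) ^ w.re * Real.Gamma w.re)) fun n => ?_
    have hG : 0 < Real.Gamma w.re := Real.Gamma_pos_of_pos hw0
    have hB := h.pos
    rcases Nat.eq_zero_or_pos n with rfl | hn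
    · rw [hF0]
      simp only [Pi.zero_apply, norm_zero, integral_zero]
      positivity
    · have hn0 : (0 : ℝ) < n := by exact_mod_cast hn
      have hn1 : (1 : ℝ) ≤ n := by exact_mod_cast hn
      rw [hintn n hn, Real.norm_of_nonneg (by positivity)]
      rw [show 1 / ((n : ℝ) * d.re) = (1 / (n : ℝ)) * (1 / d.re) by field_simp,
        Real.mul_rpow (by positivity) (by positivity)]
      have e1 : ‖aa k lam n‖ * (1 / (n : ℝ)) ^ w.re ≤ B * (1 / (n : ℝ) ^ (2 : ℝ)) := by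
        have e2 : (1 / (n : ℝ)) ^ w.re = (n : ℝ) ^ (-w.re) := by
          rw [one_div, Real.inv_rpow hn0.le, Real.rpow_neg hn0.le]
        have e3 : (1 / (n : ℝ) ^ (2 : ℝ)) = (n : ℝ) ^ (-(2 : ℝ)) := by
          rw [Real.rpow_neg hn0.le, one_div]
        rw [e2, e3]
        calc ‖aa k lam n‖ * (n : ℝ) ^ (-w.re) ≤ B * (n : ℝ) ^ (k + 1) * (n : ℝ) ^ (-w.re) :=
              mul_le_mul_of_nonneg_right (aa_le k h n) (by positivity)
          _ = B * (n : ℝ) ^ (((k + 1 : ℕ) : ℝ) + -w.re) := by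
              rw [Real.rpow_add hn0, Real.rpow_natCast, mul_assoc]
          _ ≤ B * (n : ℝ) ^ (-(2 : ℝ)) := by
              refine mul_le_mul_of_nonneg_left ?_ hB.le
              refine Real.rpow_le_rpow_of_exponent_le hn1 ?_
              push_cast
              linarith
      calc ‖aa k lam n‖ * ((1 / (n : ℝ)) ^ w.re * (1 / d.re) ^ w.re * Real.Gamma w.re)
          = (‖aa k lam n‖ * (1 / (n : ℝ)) ^ w.re) * ((1 / d.re) ^ w.re * Real.Gamma w.re) := by ring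
        _ ≤ B * (1 / (n : ℝ) ^ (2 : ℝ)) * ((1 / d.re) ^ w.re * Real.Gamma w.re) := by gcongr
  have key := hasSum_integral_of_summable_integral_norm hint hsum
  have e1 : ∀ n, ∫ x in Ioi (0 : ℝ), F n x =
      aa k lam n * (1 / ((n : ℂ) * d)) ^ w * Complex.Gamma w := by
    intro n
    rcases Nat.eq_zero_or_pos n with rfl | hn
    · rw [hF0, aa_zero k h]; simp
    · simp only [hFe]
      rw [integral_const_mul, rot_formula hw0 (hre n hn), mul_assoc]
  have e2 : ∫ x in Ioi (0 : ℝ), ∑' n, F n x = mellin (fr k lam d) w := by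
    unfold mellin
    refine setIntegral_congr_fun measurableSet_Ioi fun x hx => ?_
    simp only [hF, smul_eq_mul]
    rw [tsum_mul_left]
    rfl
  rw [← e2, ← key.tsum_eq, ← tsum_mul_right]
  exact tsum_congr e1

/-- the direction -/
noncomputable def dir (φ : ℝ) : ℂ := cexp (I * (φ : ℂ))

lemma dir_re (φ : ℝ) : (dir φ).re = Real.cos φ := by
  unfold dir
  rw [mul_comm, Complex.exp_mul_I, Complex.add_re, ← Complex.ofReal_cos, ← Complex.ofReal_sin,
    Complex.ofReal_re]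
  simp

lemma dir_pos {φ : ℝ} (h0 : 0 < φ) (h1 : φ < Real.pi / 2) : 0 < (dir φ).re := by
  rw [dir_re]
  exact Real.cos_pos_of_mem_Ioo ⟨by linarith [Real.pi_pos], h1⟩

lemma term_eq {φ : ℝ} (h0 : 0 < φ) (h1 : φ < Real.pi / 2) (n : ℕ) (hn : 1 ≤ n) (s : ℂ) :
    (1 / ((n : ℂ) * dir φ)) ^ s = (n : ℂ) ^ (-s) * cexp (-(I * (φ : ℂ)) * s) := by
  have hnp : (0 : ℝ) < n := by exact_mod_cast hn
  have hn' : (0 : ℝ) < 1 / (n : ℝ) := by positivity
  have e1 : 1 / ((n : ℂ) * dir φ) = ((1 / (n : ℝ) : ℝ) : ℂ) * cexp (-(I * (φ : ℂ))) := by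
    unfold dir
    rw [Complex.exp_neg]
    push_cast
    rw [one_div, mul_inv, one_div]
  have hl : Complex.log (cexp (-(I * (φ : ℂ)))) = -(I * (φ : ℂ)) := by
    apply Complex.log_exp
    · simp only [neg_im, mul_im, I_re, ofReal_im, mul_zero, I_im, ofReal_re, one_mul, zero_add]
      linarith [Real.pi_pos]
    · simp only [neg_im, mul_im, I_re, ofReal_im, mul_zero, I_im, ofReal_re, one_mul, zero_add]
      linarith [Real.pi_pos]
  have hn0 : (n : ℂ) ≠ 0 := by exact_mod_cast hnp.ne'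
  have hne : ((1 / (n : ℝ) : ℝ) : ℂ) * cexp (-(I * (φ : ℂ))) ≠ 0 :=
    mul_ne_zero (by exact_mod_cast hn'.ne') (Complex.exp_ne_zero _)
  rw [e1, Complex.cpow_def_of_ne_zero hne, Complex.log_ofReal_mul hn' (Complex.exp_ne_zero _), hl,
    add_mul, Complex.exp_add]
  congr 1
  rw [Complex.cpow_def_of_ne_zero hn0, one_div, Real.log_inv]
  congr 1
  rw [show (n : ℂ) = ((n : ℝ) : ℂ) by push_cast; rfl, ← Complex.ofReal_log hnp.le]
  push_cast
  ring

/-- the right side -/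
noncomputable def RR (k : ℕ) (F : ℂ → ℂ) (φ : ℝ) (w : ℂ) : ℂ :=
  cexp (-(I * (φ : ℂ)) * w) * Complex.Gamma w * F (w - ((((k : ℝ) - 1) / 2 : ℝ) : ℂ))

lemma eq_big (k : ℕ) {B : ℝ} {lam : ℕ → ℂ} {F : ℂ → ℂ} (h : Cr B lam) (hF : IsL lam F) {φ : ℝ} (h0 : 0 < φ)
    (h1 : φ < Real.pi / 2) {w : ℂ} (hw : (k : ℝ) + 3 < w.re) :
    mellin (fr k lam (dir φ)) w = RR k F φ w := by
  have hk0 : (0 : ℝ) ≤ k := Nat.cast_nonneg k
  rw [mellin_fr k h (dir_pos h0 h1) hw]
  unfold RR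
  have e : ∀ n : ℕ, aa k lam n * (1 / ((n : ℂ) * dir φ)) ^ w =
      (lam n * (n : ℂ) ^ (-(w - ((((k : ℝ) - 1) / 2 : ℝ) : ℂ)))) * cexp (-(I * (φ : ℂ)) * w) := by
    intro n
    rcases Nat.eq_zero_or_pos n with rfl | hn
    · rw [aa_zero k h, h.zero]; simp
    · have hnp : (0 : ℝ) < n := by exact_mod_cast hn
      have hn0 : (n : ℂ) ≠ 0 := by exact_mod_cast hnp.ne'
      rw [term_eq h0 h1 n hn]
      unfold aa
      rw [Complex.ofReal_cpow hnp.le, neg_sub,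
        sub_eq_add_neg ((((((k : ℝ) - 1) / 2 : ℝ)) : ℂ)) w, Complex.cpow_add _ _ hn0]
      push_cast
      ring
  rw [tsum_congr e, tsum_mul_right, ← hF.ser _ (by
    rw [Complex.sub_re, Complex.ofReal_re]; linarith)]
  ring

lemma RR_diff (k : ℕ) {lam : ℕ → ℂ} {F : ℂ → ℂ} (hF : IsL lam F) (φ : ℝ) {w : ℂ} (hw : 0 < w.re) :
    DifferentiableAt ℂ (RR k F φ) w := by
  unfold RR
  have hG : DifferentiableAt ℂ Complex.Gamma w := by
    refine Complex.differentiableAt_Gamma w fun m h => ?_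
    rw [h] at hw
    simp at hw
    have : (0 : ℝ) ≤ m := Nat.cast_nonneg m
    linarith
  have he : DifferentiableAt ℂ (fun s : ℂ => cexp (-(I * (φ : ℂ)) * s)) w := by fun_prop
  have hFd : DifferentiableAt ℂ (fun s : ℂ => F (s - ((((k : ℝ) - 1) / 2 : ℝ) : ℂ))) w :=
    (hF.diff _).comp w (by fun_prop)
  exact (he.mul hG).mul hFd

lemma eq_all {k N : ℕ} {ps lam : ℕ → ℂ} {F : ℂ → ℂ} (hf : Frm k N ps lam) (hF : IsL lam F) {φ : ℝ}
    (h0 : 0 < φ) (h1 : φ < Real.pi / 2) {w : ℂ} (hw : 0 < w.re) :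
    mellin (fr k lam (dir φ)) w = RR k F φ w := by
  set U : Set ℂ := {s : ℂ | 0 < s.re} with hU
  have hUo : IsOpen U := isOpen_lt continuous_const Complex.continuous_re
  have hc : Convex ℝ U := convex_halfSpace_re_gt 0
  have hL : AnalyticOnNhd ℂ (mellin (fr k lam (dir φ))) U :=
    DifferentiableOn.analyticOnNhd
      (fun z _ => (fr_diff hf (dir_pos h0 h1) z).differentiableWithinAt) hUo
  have hR : AnalyticOnNhd ℂ (RR k F φ) U :=
    DifferentiableOn.analyticOnNhd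
      (fun z hz => (RR_diff k hF φ hz).differentiableWithinAt) hUo
  have hk0 : (0 : ℝ) ≤ k := Nat.cast_nonneg k
  have hz0 : ((k : ℂ) + 4) ∈ U := by
    show 0 < ((k : ℂ) + 4).re
    simp
    linarith
  refine hL.eqOn_of_preconnected_of_eventuallyEq hR hc.isPreconnected hz0 ?_ hw
  have : ∀ᶠ z : ℂ in 𝓝 ((k : ℂ) + 4), (k : ℝ) + 3 < z.re := by
    refine (isOpen_lt continuous_const Complex.continuous_re).mem_nhds ?_
    show (k : ℝ) + 3 < ((k : ℂ) + 4).re
    simp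
    norm_num
  obtain ⟨B, hcr⟩ := cr_of hf
  filter_upwards [this] with z hz
  exact eq_big k hcr hF h0 h1 hz

lemma piece (g : ℂ → ℂ) (δ : ℝ) (s : ℂ)
    (h1 : IntegrableOn (fun x : ℝ => g (ray δ x) * (x : ℂ) ^ (s - 1)) (Ioi 0))
    (h : ℕ) (hh : 1 ≤ h) :
    IntegrableOn (fun x : ℝ => g (h * ray δ x) * (x : ℂ) ^ (s - 1)) (Ioi 0) ∧
      ∫ x in Ioi (0 : ℝ), g (h * ray δ x) * (x : ℂ) ^ (s - 1) =
        (h : ℂ) ^ (-s) * ∫ x in Ioi (0 : ℝ), g (ray δ x) * (x : ℂ) ^ (s - 1) := by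
  have hp : (0 : ℝ) < h := by exact_mod_cast hh
  have hc : (h : ℂ) ≠ 0 := by
    have := hp.ne'
    exact_mod_cast this
  have e : ∀ x ∈ Ioi (0 : ℝ), (h : ℂ) ^ (1 - s) * (g (ray δ (h * x)) * ((h * x : ℝ) : ℂ) ^ (s - 1)) =
      g (h * ray δ x) * (x : ℂ) ^ (s - 1) := by
    intro x hx
    have hx0 : (0 : ℝ) < x := hx
    have e1 : ray δ (h * x) = h * ray δ x := by
      unfold ray
      push_cast
      ring
    have e2 : ((h * x : ℝ) : ℂ) ^ (s - 1) = (h : ℂ) ^ (s - 1) * (x : ℂ) ^ (s - 1) := by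
      have := mul_cpow_ofReal_nonneg hp.le hx0.le (s - 1)
      push_cast at this ⊢
      exact this
    have e3 : (h : ℂ) ^ (1 - s) * (h : ℂ) ^ (s - 1) = 1 := by
      rw [← cpow_add _ _ hc]
      simp
    rw [e1, e2]
    calc _ = ((h : ℂ) ^ (1 - s) * (h : ℂ) ^ (s - 1)) * (g (h * ray δ x) * (x : ℂ) ^ (s - 1)) := by
          ring
      _ = _ := by rw [e3, one_mul]
  have hi : IntegrableOn (fun x : ℝ => g (ray δ (h * x)) * ((h * x : ℝ) : ℂ) ^ (s - 1)) (Ioi 0) := by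
    have := (integrableOn_Ioi_comp_mul_left_iff
      (fun x : ℝ => g (ray δ x) * (x : ℂ) ^ (s - 1)) 0 hp).2 (by rw [mul_zero]; exact h1)
    exact this
  refine ⟨?_, ?_⟩
  · refine IntegrableOn.congr_fun (hi.const_mul ((h : ℂ) ^ (1 - s))) e measurableSet_Ioi
  · rw [← setIntegral_congr_fun measurableSet_Ioi e, integral_const_mul]
    have h3 := integral_comp_mul_left_Ioi (fun x : ℝ => g (ray δ x) * (x : ℂ) ^ (s - 1)) 0 hp
    rw [mul_zero] at h3
    rw [h3]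
    have e4 : (h : ℂ) ^ (-s) = (h : ℂ) ^ (1 - s) * (h : ℂ)⁻¹ := by
      rw [← cpow_neg_one, ← cpow_add _ _ hc]
      congr 1
      ring
    rw [e4, real_smul]
    push_cast
    ring

/-- MEL -/
theorem mel : Pool.Agent.Y671.GL.S_MEL := by
  intro k N ps lam F hf hF δ σ t y b hδ hδ2 hσ hσ1
  set κ : ℝ := ((k : ℝ) - 1) / 2 with hκ
  have hk1 : (1 : ℝ) ≤ k := by exact_mod_cast hf.k_pos
  have hκ0 : 0 ≤ κ := by rw [hκ]; linarith
  set w : ℂ := ((σ + κ : ℝ) : ℂ) + t * I with hw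
  have hwre : w.re = σ + κ := by simp [hw]
  have hw0 : 0 < w.re := by rw [hwre]; linarith
  set θ : ℝ := Real.pi / 2 - δ with hθ
  have hθ0 : 0 < θ := by rw [hθ]; linarith
  have hθ1 : θ < Real.pi / 2 := by rw [hθ]; linarith
  have hre : 0 < (cexp (I * (θ : ℂ))).re := dir_pos hθ0 hθ1
  have hray : ∀ x : ℝ, ray δ x = x * dir θ := fun x => rfl
  -- the exponential
  have hexp : ∀ x : ℝ, (x : ℂ) ^ (w - 1) * cexp (-(cexp (I * (θ : ℂ)) * x)) =
      cexp (-ray δ x) * (x : ℂ) ^ (w - 1) := by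
    intro x
    unfold ray
    rw [mul_comm (x : ℂ) (cexp _), mul_comm]
  have i2 : IntegrableOn (fun x : ℝ => cexp (-ray δ x) * (x : ℂ) ^ (w - 1)) (Ioi 0) := by
    have : IntegrableOn (fun x : ℝ => (x : ℂ) ^ (w - 1) * cexp (-(cexp (I * (θ : ℂ)) * x)))
        (Ioi 0) := by
      refine Integrable.mono' (int_rpow_exp (s := w.re - 1)
        (b := (cexp (I * (θ : ℂ))).re) (by linarith) hre)
        (cpow_exp_meas w _) ?_
      refine (ae_restrict_iff' measurableSet_Ioi).2 (Eventually.of_forall fun t ht => ?_)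
      have ht0 : (0:ℝ) < t := ht
      rw [norm_mul, Complex.norm_cpow_eq_rpow_re_of_pos ht0, Complex.norm_exp]
      simp
    refine this.congr_fun (fun x _ => hexp x) measurableSet_Ioi
  have v2 : ∫ x in Ioi (0 : ℝ), cexp (-ray δ x) * (x : ℂ) ^ (w - 1) =
      cexp (-(I * (θ : ℂ)) * w) * Complex.Gamma w := by
    rw [← setIntegral_congr_fun measurableSet_Ioi (fun x _ => hexp x),
      rot_formula hw0 hre]
    congr 1
    rw [one_div, ← Complex.exp_neg, Complex.cpow_def_of_ne_zero (Complex.exp_ne_zero _),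
      Complex.log_exp]
    · simp only [neg_im, mul_im, I_re, I_im, ofReal_re, ofReal_im, zero_mul, one_mul, zero_add]
      linarith [Real.pi_pos]
    · simp only [neg_im, mul_im, I_re, I_im, ofReal_re, ofReal_im, zero_mul, one_mul, zero_add]
      linarith [Real.pi_pos]
  -- `Ph` on the ray
  have hP : ∀ x : ℝ, (x : ℂ) ^ (w - 1) • fr k lam (dir θ) x =
      Ph k lam (ray δ x) * (x : ℂ) ^ (w - 1) := by
    intro x
    rw [smul_eq_mul, mul_comm]
    rfl
  have i1 : IntegrableOn (fun x : ℝ => Ph k lam (ray δ x) * (x : ℂ) ^ (w - 1)) (Ioi 0) := by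
    have := fr_conv hf hre w
    exact IntegrableOn.congr_fun this (fun x _ => hP x) measurableSet_Ioi
  have v1 : ∫ x in Ioi (0 : ℝ), Ph k lam (ray δ x) * (x : ℂ) ^ (w - 1) = RR k F θ w := by
    rw [← eq_all hf hF hθ0 hθ1 hw0]
    unfold mellin
    exact setIntegral_congr_fun measurableSet_Ioi (fun x _ => (hP x).symm)
  have hG : ∀ x : ℝ, GF k y lam b (ray δ x) * (x : ℂ) ^ (w - 1) =
      (∑ h ∈ Finset.Icc 1 y, (b h * (((h : ℝ) ^ κ : ℝ) : ℂ)) *
        (Ph k lam (h * ray δ x) * (x : ℂ) ^ (w - 1))) -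
        b 1 * (cexp (-ray δ x) * (x : ℂ) ^ (w - 1)) := by
    intro x
    unfold GF
    rw [sub_mul, Finset.sum_mul, mul_assoc]
    congr 1
    exact Finset.sum_congr rfl fun h _ => mul_assoc _ _ _
  have i3' : ∀ h ∈ Finset.Icc 1 y,
      IntegrableOn (fun x : ℝ => (b h * (((h : ℝ) ^ κ : ℝ) : ℂ)) *
        (Ph k lam (h * ray δ x) * (x : ℂ) ^ (w - 1))) (Ioi 0) :=
    fun h hh => ((piece (Ph k lam) δ w i1 h (Finset.mem_Icc.1 hh).1).1).const_mul _
  have i3 : IntegrableOn (fun x : ℝ => ∑ h ∈ Finset.Icc 1 y,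
      (b h * (((h : ℝ) ^ κ : ℝ) : ℂ)) * (Ph k lam (h * ray δ x) * (x : ℂ) ^ (w - 1))) (Ioi 0) := by
    have := integrable_finsetSum _ i3'
    exact this
  simp only [hG]
  refine ⟨i3.sub (i2.const_mul _), ?_⟩
  rw [integral_sub i3 (i2.const_mul _), integral_finsetSum _ i3', integral_const_mul, v2]
  have hwκ : w - ((κ : ℝ) : ℂ) = (σ : ℂ) + t * I := by
    rw [hw]
    push_cast
    ring
  have e1 : ∀ h ∈ Finset.Icc 1 y, ∫ x in Ioi (0 : ℝ), (b h * (((h : ℝ) ^ κ : ℝ) : ℂ)) *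
        (Ph k lam (h * ray δ x) * (x : ℂ) ^ (w - 1)) =
      (b h * (h : ℂ) ^ (-((σ : ℂ) + t * I))) * (cexp (-(I * (θ : ℂ)) * w) * Complex.Gamma w *
        F ((σ : ℂ) + t * I)) := by
    intro h hh
    have hh1 := (Finset.mem_Icc.1 hh).1
    have hp : (0 : ℝ) < h := by exact_mod_cast hh1
    have hc : (h : ℂ) ≠ 0 := by
      have := hp.ne'
      exact_mod_cast this
    rw [integral_const_mul, (piece (Ph k lam) δ w i1 h hh1).2, v1]
    unfold RR
    rw [← hκ, hwκ, Complex.ofReal_cpow hp.le]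
    have e4 : (h : ℂ) ^ (-((σ : ℂ) + t * I)) = (h : ℂ) ^ (κ : ℂ) * (h : ℂ) ^ (-w) := by
      rw [← cpow_add _ _ hc, ← hwκ]
      congr 1
      ring
    rw [e4]
    push_cast
    ring
  rw [Finset.sum_congr rfl e1, ← Finset.sum_mul]
  unfold MM
  ring

end Pool.Agent.Y180.GL
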