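import Pool.Agent.Y180.GL.Mel
import Pool.Agent.W352.SD.SPlan

set_option autoImplicit false

/-!
# The mean square of `F M - b_1` from the ray integral
-/

namespace Pool.Agent.Y180.GL

open Complex Filter Topology MeasureTheory Set Asymptotics
open scoped ComplexConjugate
open Pool.Agent.H24R2.DZ (MM ray)
open Pool.Agent.Y671.GL

/-- global bound with a weight -/
lemma wbd {f : ℝ → ℂ} (hf : ContinuousOn f (Ioi 0)) {c : ℝ} (hc : 0 < c)
    (ht : f =O[atTop] (fun x : ℝ => Real.exp (-c * x))) (h0 : f =O[𝓝[>] 0] (fun x : ℝ => x ^ (-(0 : ℝ))))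
    {a : ℝ} (ha : 0 ≤ a) : ∃ C : ℝ, 0 < C ∧ ∀ x : ℝ, 0 < x → ‖f x‖ * x ^ a ≤ C := by
  -- near zero
  obtain ⟨C1, hC1⟩ := h0.bound
  obtain ⟨x0, hx0, h1⟩ : ∃ x0 : ℝ, 0 < x0 ∧ ∀ x : ℝ, 0 < x → x < x0 → ‖f x‖ ≤ C1 := by
    rw [eventually_nhdsWithin_iff, Metric.eventually_nhds_iff] at hC1
    obtain ⟨e, he, h⟩ := hC1
    refine ⟨e, he, fun x hx hxe => ?_⟩
    have := h (y := x) (by rw [Real.dist_eq, sub_zero, abs_of_pos hx]; exact hxe) hx
    simpa using this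
  -- near infinity
  have h2 : (fun x : ℝ => ‖f x‖ * x ^ a) =O[atTop] (fun _ : ℝ => (1 : ℝ)) := by
    have e1 := (isLittleO_exp_neg_mul_rpow_atTop hc (-a)).isBigO
    have e2 : (fun x : ℝ => ‖f x‖) =O[atTop] (fun x : ℝ => x ^ (-a)) := (ht.trans e1).norm_left
    have e3 := e2.mul (isBigO_refl (fun x : ℝ => x ^ a) atTop)
    refine e3.congr' EventuallyEq.rfl ?_
    filter_upwards [eventually_gt_atTop (0 : ℝ)] with x hx
    rw [← Real.rpow_add hx, neg_add_cancel, Real.rpow_zero]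
  obtain ⟨C2, hC2⟩ := h2.bound
  obtain ⟨X1, hX1⟩ := eventually_atTop.1 hC2
  have h3 : ContinuousOn (fun x : ℝ => ‖f x‖ * x ^ a) (Icc (min x0 1) (max X1 1)) := by
    have hsub : Icc (min x0 1) (max X1 1) ⊆ Ioi 0 := fun x hx =>
      lt_of_lt_of_le (lt_min hx0 one_pos) hx.1
    refine ContinuousOn.mul (hf.norm.mono hsub) ?_
    intro x hx
    exact (Real.continuousAt_rpow_const x _ (Or.inl (ne_of_gt (hsub hx)))).continuousWithinAt
  obtain ⟨C3, hC3⟩ := isCompact_Icc.exists_bound_of_continuousOn h3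
  refine ⟨|C1| + |C2| + |C3| + 1, by positivity, fun x hx => ?_⟩
  have n1 := abs_nonneg C1
  have n2 := abs_nonneg C2
  have n3 := abs_nonneg C3
  rcases lt_or_ge x (min x0 1) with hx1 | hx1
  · have e1 := h1 x hx (hx1.trans_le (min_le_left _ _))
    have e2 : x ^ a ≤ 1 := Real.rpow_le_one hx.le (hx1.le.trans (min_le_right _ _)) ha
    have e3 : 0 ≤ x ^ a := by positivity
    have e4 : ‖f x‖ * x ^ a ≤ |C1| * 1 :=
      mul_le_mul (e1.trans (le_abs_self _)) e2 e3 n1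
    linarith
  · rcases le_or_gt x (max X1 1) with hx2 | hx2
    · have e1 := hC3 x ⟨hx1, hx2⟩
      have e2 := le_abs_self C3
      have e3 := (le_abs_self (‖f x‖ * x ^ a)).trans e1
      linarith
    · have e1 := hX1 x ((le_max_left _ _).trans hx2.le)
      rw [norm_one, mul_one] at e1
      have e2 := le_abs_self C2
      have e3 := (le_abs_self (‖f x‖ * x ^ a)).trans e1
      linarith

lemma ray_mul (δ : ℝ) (h x : ℝ) : ray δ (h * x) = h * ray δ x := by
  unfold ray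
  push_cast
  ring

/-- the function for Plancherel -/
lemma gf_bd {k N : ℕ} {ps lam : ℕ → ℂ} (hf : Frm k N ps lam) {δ : ℝ} (hδ : 0 < δ)
    (hδ2 : δ < Real.pi / 2) (y : ℕ) (b : ℕ → ℂ) {a : ℝ} (ha : 0 ≤ a) :
    ContinuousOn (fun x : ℝ => GF k y lam b (ray δ x)) (Ioi 0) ∧
    ∃ C : ℝ, 0 < C ∧ ∀ x : ℝ, 0 < x → ‖GF k y lam b (ray δ x)‖ * x ^ a ≤ C := by
  set θ : ℝ := Real.pi / 2 - δ with hθ
  have hθ0 : 0 < θ := by rw [hθ]; linarith
  have hθ1 : θ < Real.pi / 2 := by rw [hθ]; linarith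
  have hd : 0 < (dir θ).re := dir_pos hθ0 hθ1
  have hray : ∀ x : ℝ, ray δ x = x * dir θ := fun x => rfl
  have hP : ∀ x : ℝ, Ph k lam (ray δ x) = fr k lam (dir θ) x := fun x => rfl
  have hPh : ∀ (h : ℕ) (x : ℝ), Ph k lam (h * ray δ x) = fr k lam (dir θ) (h * x) := by
    intro h x
    unfold fr
    rw [hray]
    congr 1
    push_cast
    ring
  obtain ⟨B0, hcr⟩ := cr_of hf
  have hc1 := fr_cont k hcr hd
  obtain ⟨C1, hC1, hb1⟩ := wbd hc1 (half_pos hd) (fr_top k hcr hd) (fr_zero hf hd 0) ha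
  -- the exponential
  have hc2 : Continuous (fun x : ℝ => cexp (-ray δ x)) := by
    unfold ray
    fun_prop
  have hn2 : ∀ x : ℝ, ‖cexp (-ray δ x)‖ = Real.exp (-(dir θ).re * x) := by
    intro x
    rw [Complex.norm_exp, Complex.neg_re, hray, re_mul]
    congr 1
    ring
  obtain ⟨C2, hC2, hb2⟩ := wbd (f := fun x : ℝ => cexp (-ray δ x)) hc2.continuousOn hd
    (IsBigO.of_bound 1 (Eventually.of_forall fun x => by
      rw [hn2, one_mul, Real.norm_of_nonneg (Real.exp_pos _).le]))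
    (IsBigO.of_bound 1 (by
      filter_upwards [self_mem_nhdsWithin] with x hx
      have hx0 : (0 : ℝ) < x := hx
      rw [hn2, neg_zero, Real.rpow_zero, norm_one, one_mul, Real.exp_le_one_iff]
      nlinarith)) ha
  refine ⟨?_, ?_⟩
  · unfold GF
    simp only [hPh]
    refine ContinuousOn.sub (continuousOn_finsetSum _ fun h hh => ?_) (continuous_const.mul hc2).continuousOn
    refine continuousOn_const.mul ?_
    have hh1 : (0 : ℝ) < h := by exact_mod_cast (Finset.mem_Icc.1 hh).1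
    refine hc1.comp (by fun_prop) ?_
    intro x hx
    exact mul_pos hh1 hx
  · refine ⟨(∑ h ∈ Finset.Icc 1 y, ‖b h‖ * (h : ℝ) ^ (((k : ℝ) - 1) / 2) * C1) + ‖b 1‖ * C2 + 1,
      by positivity, fun x hx => ?_⟩
    have hxa : 0 ≤ x ^ a := by positivity
    have h1 : ‖GF k y lam b (ray δ x)‖ ≤ (∑ h ∈ Finset.Icc 1 y, ‖b h‖ * (h : ℝ) ^ (((k : ℝ) - 1) / 2) *
        ‖fr k lam (dir θ) (h * x)‖) + ‖b 1‖ * ‖cexp (-ray δ x)‖ := by
      unfold GF
      refine (norm_sub_le _ _).trans (add_le_add ((norm_sum_le _ _).trans (Finset.sum_le_sum fun h hh => ?_)) ?_)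
      · rw [norm_mul, norm_mul, hPh, Complex.norm_real, Real.norm_of_nonneg (by positivity)]
      · rw [norm_mul]
    calc ‖GF k y lam b (ray δ x)‖ * x ^ a ≤ ((∑ h ∈ Finset.Icc 1 y, ‖b h‖ * (h : ℝ) ^ (((k : ℝ) - 1) / 2) *
        ‖fr k lam (dir θ) (h * x)‖) + ‖b 1‖ * ‖cexp (-ray δ x)‖) * x ^ a :=
          mul_le_mul_of_nonneg_right h1 hxa
      _ = (∑ h ∈ Finset.Icc 1 y, ‖b h‖ * (h : ℝ) ^ (((k : ℝ) - 1) / 2) *
        (‖fr k lam (dir θ) (h * x)‖ * x ^ a)) + ‖b 1‖ * (‖cexp (-ray δ x)‖ * x ^ a) := by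
          rw [add_mul, Finset.sum_mul]
          congr 1
          · exact Finset.sum_congr rfl fun h _ => by ring
          · ring
      _ ≤ (∑ h ∈ Finset.Icc 1 y, ‖b h‖ * (h : ℝ) ^ (((k : ℝ) - 1) / 2) * C1) + ‖b 1‖ * C2 := by
          refine add_le_add (Finset.sum_le_sum fun h hh => ?_) (mul_le_mul_of_nonneg_left (hb2 x hx) (norm_nonneg _))
          refine mul_le_mul_of_nonneg_left ?_ (by positivity)
          have hh1 : (1 : ℝ) ≤ h := by exact_mod_cast (Finset.mem_Icc.1 hh).1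
          have hh0 : (0 : ℝ) < h := by linarith
          refine le_trans ?_ (hb1 (h * x) (by positivity))
          refine mul_le_mul_of_nonneg_left ?_ (norm_nonneg _)
          exact Real.rpow_le_rpow hx.le (by nlinarith) ha
      _ ≤ _ := by linarith

/-- crude bound -/
lemma cn_le {B : ℝ} {lam : ℕ → ℂ} (h : Cr B lam) {y : ℕ} {b : ℕ → ℂ} (hb : ∀ h, y < h → b h = 0) (n : ℕ) :
    ‖cn lam b n‖ ≤ (∑ h ∈ Finset.Icc 1 y, ‖b h‖) * (B * n) := by
  have hB := h.pos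
  unfold cn
  refine (norm_sum_le _ _).trans ?_
  have h1 : ∑ h ∈ n.divisors, ‖b h * lam (n / h)‖ ≤ ∑ h ∈ n.divisors, ‖b h‖ * (B * n) := by
    refine Finset.sum_le_sum fun h' hh => ?_
    rw [norm_mul]
    refine mul_le_mul_of_nonneg_left ((h.le _).trans ?_) (norm_nonneg _)
    refine mul_le_mul_of_nonneg_left ?_ hB.le
    exact_mod_cast Nat.div_le_self _ _
  refine h1.trans ?_
  rw [← Finset.sum_mul]
  refine mul_le_mul_of_nonneg_right ?_ (by positivity)
  have h2 : ∑ h ∈ n.divisors, ‖b h‖ = ∑ h ∈ n.divisors.filter (fun h => h ≤ y), ‖b h‖ := by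
    symm
    apply Finset.sum_filter_of_ne
    intro h _ hne
    by_contra hh
    exact hne (by rw [hb h (not_le.1 hh), norm_zero])
  rw [h2]
  apply Finset.sum_le_sum_of_subset_of_nonneg
  · intro h hh
    rw [Finset.mem_filter] at hh
    rw [Finset.mem_Icc]
    exact ⟨Nat.pos_of_mem_divisors hh.1, hh.2⟩
  · intro i _ _
    exact norm_nonneg _

/-- the primal sum -/
noncomputable def A1 (lam b : ℕ → ℂ) (σ D : ℝ) (n : ℕ) : ℝ :=
  if n ≤ 1 then 0 else ‖cn lam b n‖ ^ 2 * (n : ℝ) ^ (-(2 * σ)) * Real.exp (-(n / D))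

lemma A1_nonneg (lam b : ℕ → ℂ) (σ D : ℝ) (n : ℕ) : 0 ≤ A1 lam b σ D n := by
  unfold A1
  split_ifs
  · exact le_rfl
  · positivity

lemma A1_summable {B : ℝ} {lam : ℕ → ℂ} (h : Cr B lam) {y : ℕ} {b : ℕ → ℂ} (hb : ∀ h, y < h → b h = 0)
    {σ D : ℝ} (hσ : 1 / 2 ≤ σ) (hD : 0 < D) : Summable (A1 lam b σ D) := by
  have h1 := (Real.summable_pow_mul_exp_neg_nat_mul 1 (inv_pos.2 hD)).mul_left
    (((∑ h ∈ Finset.Icc 1 y, ‖b h‖) * B) ^ 2)
  refine Summable.of_nonneg_of_le (A1_nonneg lam b σ D) (fun n => ?_) h1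
  unfold A1
  split_ifs with hn
  · positivity
  · have hn0 : (0 : ℝ) < n := by
      have : 0 < n := by omega
      exact_mod_cast this
    have hn1 : (1 : ℝ) ≤ n := by
      have : 1 ≤ n := by omega
      exact_mod_cast this
    have e1 : (n : ℝ) ^ (-(2 * σ)) ≤ (n : ℝ)⁻¹ := by
      rw [← Real.rpow_neg_one]
      exact Real.rpow_le_rpow_of_exponent_le hn1 (by linarith)
    have e2 := cn_le h hb n
    have e3 : ‖cn lam b n‖ ^ 2 ≤ ((∑ h ∈ Finset.Icc 1 y, ‖b h‖) * (B * n)) ^ 2 :=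
      pow_le_pow_left₀ (norm_nonneg _) e2 2
    have e4 : Real.exp (-(n / D)) = Real.exp (-D⁻¹ * n) := by
      congr 1
      rw [div_eq_mul_inv]
      ring
    rw [e4]
    calc ‖cn lam b n‖ ^ 2 * (n : ℝ) ^ (-(2 * σ)) * Real.exp (-D⁻¹ * n)
        ≤ ((∑ h ∈ Finset.Icc 1 y, ‖b h‖) * (B * n)) ^ 2 * (n : ℝ)⁻¹ * Real.exp (-D⁻¹ * n) := by gcongr
      _ = ((∑ h ∈ Finset.Icc 1 y, ‖b h‖) * B) ^ 2 * ((n : ℝ) ^ 1 * Real.exp (-D⁻¹ * n)) := by
          field_simp

lemma A1_mono {B : ℝ} {lam : ℕ → ℂ} (h : Cr B lam) {y : ℕ} {b : ℕ → ℂ} (hb : ∀ h, y < h → b h = 0)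
    {σ D D' : ℝ} (hσ : 1 / 2 ≤ σ) (hD : 0 < D) (hDD : D ≤ D') :
    ∑' n, A1 lam b σ D n ≤ ∑' n, A1 lam b σ D' n := by
  refine Summable.tsum_le_tsum (fun n => ?_) (A1_summable h hb hσ hD)
    (A1_summable h hb hσ (hD.trans_le hDD))
  unfold A1
  split_ifs
  · exact le_rfl
  · have hD' : 0 < D' := hD.trans_le hDD
    have : (n : ℝ) / D' ≤ n / D := by gcongr
    have e : Real.exp (-(n / D)) ≤ Real.exp (-(n / D')) := Real.exp_le_exp.2 (by linarith)
    gcongr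

theorem san (h1 : S_RAY) (h2 : S_MEL) (h3 : S_GAM) : S_SAN := by
  intro k N ps lam F hf hF
  obtain ⟨c, C, A, T0, hc, hC, hA, hT0, hray⟩ := h1 k N ps lam hf
  have hk1 : (1 : ℝ) ≤ k := by exact_mod_cast hf.k_pos
  set κ : ℝ := ((k : ℝ) - 1) / 2 with hκ
  have hκ0 : 0 ≤ κ := by rw [hκ]; linarith
  obtain ⟨cg, T1, hcg, hT1, hgam⟩ := h3 (1 / 2) (3 / 2 + κ) (by norm_num) (by linarith)
  have hpi := Real.pi_pos
  have hpi3 := Real.pi_gt_three
  set C' : ℝ := 2 * Real.pi * C / cg + C with hC'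
  have hC'0 : 0 < C' := by positivity
  refine ⟨c, C', A, max T0 T1, hc, hC'0, hA, hT0.trans (le_max_left _ _), ?_⟩
  intro T σ y b hT hy hyT hσ hσ1 hb
  have hTT0 : T0 ≤ T := (le_max_left _ _).trans hT
  have hTT1 : T1 ≤ T := (le_max_right _ _).trans hT
  have hT10 : 10 ≤ T := hT0.trans hTT0
  have hTp : 0 < T := by linarith
  have hyR : (1:ℝ) ≤ y := by exact_mod_cast hy
  have hy0 : (0:ℝ) < y := by linarith
  obtain ⟨hint, hle⟩ := hray T σ y b hTT0 hy hyT hσ hσ1 hb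
  set δ : ℝ := 1 / T with hδ
  have hδ0 : 0 < δ := by positivity
  have hδ2 : δ < Real.pi / 2 := by
    have : δ ≤ 1 / 10 := by
      rw [hδ, div_le_div_iff₀ hTp (by norm_num)]; linarith
    linarith
  -- abbreviations
  set X1 : ℝ := ∑' n, A1 lam b σ (C * T * (y : ℝ) ^ A) n with hX1
  set X1' : ℝ := ∑' n, A1 lam b σ (C' * T * (y : ℝ) ^ A) n with hX1'
  have hX1e : (∑' n : ℕ, if n ≤ 1 then 0 else ‖cn lam b n‖ ^ 2 * (n : ℝ) ^ (-(2 * σ)) *
        Real.exp (-(n / (C * T * (y : ℝ) ^ A)))) = X1 := rfl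
  have hX1e' : (∑' n : ℕ, if n ≤ 1 then 0 else ‖cn lam b n‖ ^ 2 * (n : ℝ) ^ (-(2 * σ)) *
        Real.exp (-(n / (C' * T * (y : ℝ) ^ A)))) = X1' := rfl
  have hX10 : 0 ≤ X1 := tsum_nonneg (A1_nonneg _ _ _ _)
  have hyA : 0 < (y : ℝ) ^ A := Real.rpow_pos_of_pos hy0 _
  obtain ⟨B0, hcr⟩ := cr_of hf
  have hXX : X1 ≤ X1' := A1_mono hcr hb hσ (by positivity) (by
    have : C ≤ C' := by
      have : 0 ≤ 2 * Real.pi * C / cg := by positivity
      linarith
    gcongr)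
  set X2 : ℝ := T ^ (1 - 2 * σ) * DS y lam b T with hX2
  have hX20 : 0 ≤ X2 := by
    refine mul_nonneg (by positivity) ?_
    unfold DS
    refine Finset.sum_nonneg fun q _ => tsum_nonneg fun a => ?_
    split_ifs
    · positivity
    · exact le_rfl
  set X3 : ℝ := T ^ (-c) * (y : ℝ) ^ A * ∑ h ∈ Finset.Icc 1 y, ‖b h‖ ^ 2 with hX3
  have hX30 : 0 ≤ X3 := by
    rw [hX3]
    have : 0 ≤ ∑ h ∈ Finset.Icc 1 y, ‖b h‖ ^ 2 := Finset.sum_nonneg fun h _ => by positivity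
    positivity
  rw [hX1e] at hle
  rw [hX1e']
  -- Plancherel
  set a : ℝ := σ + κ - 1 / 2 with ha
  have ha0 : 0 ≤ a := by rw [ha]; linarith
  obtain ⟨hcont, Ca, hCa, hba⟩ := gf_bd hf hδ0 hδ2 y b ha0
  obtain ⟨-, Cb, hCb, hbb⟩ := gf_bd hf hδ0 hδ2 y b (show 0 ≤ a + 1 by linarith)
  set G : ℝ → ℂ := fun x => GF k y lam b (ray δ x) * ((x ^ a : ℝ) : ℂ) with hG
  have hGn : ∀ x : ℝ, 0 < x → ‖G x‖ = ‖GF k y lam b (ray δ x)‖ * x ^ a := by
    intro x hx
    rw [hG]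
    simp only
    rw [norm_mul, Complex.norm_real, Real.norm_of_nonneg (by positivity)]
  have hGc : ContinuousOn G (Ioi 0) := by
    refine hcont.mul ?_
    refine Complex.continuous_ofReal.comp_continuousOn ?_
    intro x hx
    exact (Real.continuousAt_rpow_const x _ (Or.inl (ne_of_gt hx))).continuousWithinAt
  have hG1 : ∀ x : ℝ, 0 < x → ‖G x‖ ≤ Ca + Cb := by
    intro x hx
    rw [hGn x hx]
    linarith [hba x hx]
  have hG2 : ∀ x : ℝ, 0 < x → ‖G x‖ ≤ (Ca + Cb) / x := by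
    intro x hx
    rw [hGn x hx, le_div_iff₀ hx]
    have := hbb x hx
    rw [Real.rpow_add hx, Real.rpow_one, ← mul_assoc] at this
    linarith
  have hplan := Pool.Agent.W352.SD.splan G (Ca + Cb) (1 / 2) (T / 4) (4 * T) hGc (by norm_num)
    (by norm_num) hG1 hG2 (by linarith)
  set Z : ℝ → ℂ := fun t => F ((σ : ℂ) + t * I) * MM y b ((σ : ℂ) + t * I) - b 1 with hZ
  set s' : ℝ := σ + κ with hs'
  set E : ℝ → ℂ := fun t => cexp (-(I * ((Real.pi / 2 - 1 / T : ℝ) : ℂ)) * ((s' : ℂ) + t * I)) *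
    Complex.Gamma ((s' : ℂ) + t * I) with hE
  have hmel : ∀ t : ℝ, ∫ x in Ioi (0 : ℝ), G x * (x : ℂ) ^ (((1 / 2 : ℝ) : ℂ) + t * I - 1) = E t * Z t := by
    intro t
    have h4 := (h2 k N ps lam F hf hF δ σ t y b hδ0 hδ2 hσ hσ1).2
    have h5 : ∫ x in Ioi (0 : ℝ), G x * (x : ℂ) ^ (((1 / 2 : ℝ) : ℂ) + t * I - 1) =
        ∫ x in Ioi (0 : ℝ), GF k y lam b (ray δ x) *
          (x : ℂ) ^ (((σ + ((k : ℝ) - 1) / 2 : ℝ) : ℂ) + t * I - 1) := by
      refine setIntegral_congr_fun measurableSet_Ioi fun x hx => ?_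
      have hx0 : (0 : ℝ) < x := hx
      have hxc : (x : ℂ) ≠ 0 := by exact_mod_cast hx0.ne'
      simp only [hG]
      rw [mul_assoc]
      congr 1
      rw [Complex.ofReal_cpow hx0.le, ← Complex.cpow_add _ _ hxc]
      congr 1
      rw [ha, hs', hκ]
      push_cast
      ring
    rw [h5, h4]
  simp_rw [hmel] at hplan
  have hrhs : ∫ x in Ioi (0 : ℝ), ‖G x‖ ^ 2 * x ^ (2 * (1 / 2 : ℝ) - 1) =
      ∫ x in Ioi (0 : ℝ), ‖GF k y lam b (ray δ x)‖ ^ 2 * x ^ (2 * σ + k - 2) := by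
    refine setIntegral_congr_fun measurableSet_Ioi fun x hx => ?_
    have hx0 : (0 : ℝ) < x := hx
    rw [hGn x hx0, mul_pow, ← Real.rpow_natCast (x ^ a) 2, ← Real.rpow_mul hx0.le]
    have e1 : (2 * (1 / 2 : ℝ) - 1) = 0 := by norm_num
    rw [e1, Real.rpow_zero, mul_one]
    congr 2
    rw [ha, hs', hκ]
    push_cast
    ring
  rw [hrhs] at hplan
  -- continuity
  have hline : Continuous (fun t : ℝ => (σ : ℂ) + t * I) := by fun_prop
  have hline' : Continuous (fun t : ℝ => (s' : ℂ) + t * I) := by fun_prop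
  have hZc : Continuous Z := by
    rw [hZ]
    apply Continuous.sub _ continuous_const
    apply Continuous.mul
    · exact hF.diff.continuous.comp hline
    · unfold MM
      apply continuous_finsetSum
      intro h hh
      apply continuous_const.mul
      apply Continuous.const_cpow (by fun_prop)
      left
      have : h ≠ 0 := by
        have := (Finset.mem_Icc.1 hh).1
        omega
      exact_mod_cast this
  have hEc : Continuous E := by
    rw [hE]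
    apply Continuous.mul (by fun_prop)
    rw [continuous_iff_continuousAt]
    intro t
    refine ContinuousAt.comp (f := fun t : ℝ => (s' : ℂ) + t * I) (g := Complex.Gamma) ?_ hline'.continuousAt
    apply (Complex.differentiableAt_Gamma _ _).continuousAt
    intro m h
    have := congrArg Complex.re h
    simp at this
    have hm : (0:ℝ) ≤ m := Nat.cast_nonneg m
    linarith
  have hmono : cg * T ^ (2 * s' - 1) * ∫ t in (T / 4)..(4 * T), ‖Z t‖ ^ 2 ≤
      ∫ t in (T / 4)..(4 * T), ‖E t * Z t‖ ^ 2 := by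
    rw [← intervalIntegral.integral_const_mul]
    apply intervalIntegral.integral_mono_on (by linarith)
    · exact ((continuous_const.mul (hZc.norm.pow 2))).intervalIntegrable _ _
    · exact ((hEc.mul hZc).norm.pow 2).intervalIntegrable _ _
    · intro t ht
      have h7 := hgam T t s' hTT1 ht.1 ht.2 (by rw [hs']; linarith) (by rw [hs']; linarith)
      rw [norm_mul, mul_pow]
      exact mul_le_mul_of_nonneg_right h7 (by positivity)
  have es : 2 * s' - 1 = 2 * σ + k - 2 := by rw [hs', hκ]; ring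
  rw [es] at hmono
  have eT : T ^ (2 * σ + k - 1) = T * T ^ (2 * σ + k - 2) := by
    have := Real.rpow_add hTp 1 (2 * σ + k - 2)
    rw [Real.rpow_one] at this
    rw [← this]
    congr 1
    ring
  have hTq : 0 < T ^ (2 * σ + k - 2) := Real.rpow_pos_of_pos hTp _
  have hfin : cg * T ^ (2 * σ + k - 2) * ∫ t in (T / 4)..(4 * T), ‖Z t‖ ^ 2 ≤
      cg * T ^ (2 * σ + k - 2) * ((2 * Real.pi * C / cg) * T * (X1 + X2 + X3)) := by
    calc _ ≤ 2 * Real.pi * (C * T ^ (2 * σ + k - 1) * (X1 + X2 + X3)) := by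
          refine (hmono.trans hplan).trans ?_
          exact mul_le_mul_of_nonneg_left hle (by positivity)
      _ = _ := by
          rw [eT]
          field_simp
  have h8 := le_of_mul_le_mul_left hfin (by positivity)
  refine h8.trans ?_
  have e9 : 2 * Real.pi * C / cg ≤ C' := by linarith
  have e10 : X1 + X2 + X3 ≤ X1' + X2 + X3 := by linarith
  have e11 : 0 ≤ X1 + X2 + X3 := by positivity
  calc 2 * Real.pi * C / cg * T * (X1 + X2 + X3) ≤ C' * T * (X1 + X2 + X3) := by gcongr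
    _ ≤ C' * T * (X1' + X2 + X3) := by gcongr

end Pool.Agent.Y180.GL
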